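import Mathlib

set_option autoImplicit false

namespace Pool.Agent.Results.MP_8907f9_an.NoResidual

open Filter Topology Finset
open scoped Classical

variable {d : ℕ → ℕ} [∀ r, NeZero (d r)]

/-- the first `s` digits of `x` are all maximal (so `s < s_x`; digits are numbered from `0`). -/
def AllMax (x : ∀ r, Fin (d r)) (s : ℕ) : Prop := ∀ r < s, (x r : ℕ) = d r - 1

/-- the adding machine `x ↦ x + 1`, with carries. -/
noncomputable def succ (x : ∀ r, Fin (d r)) : ∀ r, Fin (d r) :=
  fun r => if AllMax x r then x r + 1 else x r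

/-- `x` with its first `s` digits replaced by zero. -/
def trunc (s : ℕ) (x : ∀ r, Fin (d r)) : ∀ r, Fin (d r) := fun r => if r < s then 0 else x r

/-- the product of the first `s_x` probabilities (an infinite product when `s_x` is infinite). -/
noncomputable def fullProd (p : ℕ → ℝ) (x : ∀ r, Fin (d r)) : ℝ :=
  ⨅ n : ℕ, ∏ r ∈ range n, if AllMax x r then p r else 1

/-- the stochastic adding machine operator, as a formula. -/
noncomputable def op (p : ℕ → ℝ) (g : (∀ r, Fin (d r)) → ℂ) (x : ∀ r, Fin (d r)) : ℂ :=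
  (1 - p 0) * g x + fullProd p x * g (succ x) +
    ∑' s : ℕ, if AllMax x (s + 1) then
      (((∏ r ∈ range (s + 1), p r) * (1 - p (s + 1)) : ℝ) : ℂ) * g (trunc (s + 1) x) else 0

noncomputable def Q (p : ℕ → ℝ) (x : ∀ r, Fin (d r)) (n : ℕ) : ℝ :=
  ∏ r ∈ range n, if AllMax x r then p r else 1

lemma AllMax.mono {x : ∀ r, Fin (d r)} {s t : ℕ} (h : AllMax x s) (hts : t ≤ s) : AllMax x t :=
  fun r hr => h r (by omega)

lemma term (p : ℕ → ℝ) (x : ∀ r, Fin (d r)) (s : ℕ) (c : ℂ) :
    (if AllMax x (s + 1) then (((∏ r ∈ range (s + 1), p r) * (1 - p (s + 1)) : ℝ) : ℂ) * c else 0)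
      = ((Q p x (s + 1) - Q p x (s + 2) : ℝ) : ℂ) * c := by
  have e : Q p x (s + 2) = Q p x (s + 1) * if AllMax x (s + 1) then p (s + 1) else 1 :=
    prod_range_succ _ _
  rw [e]
  split_ifs with h
  · have : Q p x (s + 1) = ∏ r ∈ range (s + 1), p r :=
      prod_congr rfl fun r hr => if_pos (h.mono (by have := mem_range.1 hr; omega))
    rw [this]; congr 2; ring
  · simp

lemma closed {p : ℕ → ℝ} (hp : ∀ r, 0 < p r ∧ p r ≤ 1) (m : ℕ) (g : (∀ r, Fin (d r)) → ℂ)
    (hg : ∀ x y, (∀ r < m, x r = y r) → g x = g y) (x : ∀ r, Fin (d r)) :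
    op p g x = (1 - p 0) * g x + Q p x (m + 1) * g (succ x) +
      ∑ s ∈ range m, ((Q p x (s + 1) - Q p x (s + 2) : ℝ) : ℂ) * g (trunc (s + 1) x) := by
  have hq0 : ∀ n, 0 ≤ Q p x n := fun n => prod_nonneg fun r _ => by
    split_ifs
    · exact (hp r).1.le
    · exact zero_le_one
  have hanti : Antitone (Q p x) := antitone_nat_of_succ_le fun n => by
    have e : Q p x (n + 1) = Q p x n * if AllMax x n then p n else 1 := prod_range_succ _ _
    rw [e]
    refine mul_le_of_le_one_right (hq0 n) ?_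
    split_ifs
    · exact (hp n).2
    · exact le_rfl
  have hlim : Tendsto (Q p x) atTop (𝓝 (fullProd p x)) :=
    tendsto_atTop_ciInf hanti ⟨0, by rintro _ ⟨n, rfl⟩; exact hq0 n⟩
  have hs : HasSum (fun s => Q p x (s + m + 1) - Q p x (s + m + 2))
      (Q p x (m + 1) - fullProd p x) := by
    rw [hasSum_iff_tendsto_nat_of_nonneg (fun s => sub_nonneg.2 (hanti (by omega)))]
    have : ∀ n, ∑ s ∈ range n, (Q p x (s + m + 1) - Q p x (s + m + 2)) =
        Q p x (m + 1) - Q p x (n + (m + 1)) := by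
      intro n
      have := sum_range_sub' (fun s => Q p x (s + (m + 1))) n
      simp only [zero_add] at this
      rw [← this]
      refine sum_congr rfl fun s _ => ?_
      congr 2; ring
    simp only [this]
    exact (hlim.comp (tendsto_add_atTop_nat (m + 1))).const_sub _
  have hs2 : HasSum (fun s => ((Q p x (s + m + 1) - Q p x (s + m + 2) : ℝ) : ℂ) *
      g (trunc (s + m + 1) x)) (((Q p x (m + 1) - fullProd p x : ℝ) : ℂ) * g (succ x)) := by
    have k := (Complex.hasSum_ofReal.2 hs).mul_right (g (succ x))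
    refine (congrArg (fun f => HasSum f _) (funext fun s => ?_)).mpr k
    rw [← term, ← term]
    split_ifs with h
    · congr 1
      refine hg _ _ fun r hr => ?_
      have h1 : r < s + m + 1 := by omega
      simp only [trunc, succ, h1, if_true, h.mono h1.le]
      have h2 := h r h1
      have h3 := NeZero.pos (d r)
      ext
      rw [Fin.val_add, h2, Fin.val_one', Nat.add_mod_mod, Nat.sub_add_cancel h3]
      simp
    · rfl
  have hs3 := (hasSum_nat_add_iff (f := fun s => ((Q p x (s + 1) - Q p x (s + 2) : ℝ) : ℂ) *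
      g (trunc (s + 1) x)) m).1 hs2
  unfold op
  simp only [term]
  rw [hs3.tsum_eq]
  push_cast
  ring

def ext (m : ℕ) (u : ∀ r : Fin m, Fin (d r)) : ∀ r, Fin (d r) :=
  fun r => if h : r < m then u ⟨r, h⟩ else 0

def res (m : ℕ) (x : ∀ r, Fin (d r)) : ∀ r : Fin m, Fin (d r) := fun r => x r

omit [∀ r, NeZero (d r)] in
lemma res_eq {m : ℕ} {x y : ∀ r, Fin (d r)} (h : ∀ r < m, x r = y r) : res m x = res m y :=
  funext fun r => h r r.2

lemma op_dep {p : ℕ → ℝ} (hp : ∀ r, 0 < p r ∧ p r ≤ 1) (m : ℕ) (g : (∀ r, Fin (d r)) → ℂ)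
    (hg : ∀ x y, (∀ r < m, x r = y r) → g x = g y) (x y : ∀ r, Fin (d r))
    (h : ∀ r < m, x r = y r) : op p g x = op p g y := by
  have hA : ∀ s ≤ m, AllMax x s ↔ AllMax y s := fun s hs =>
    forall₂_congr fun r hr => by rw [h r (by omega)]
  have hQ : ∀ n ≤ m + 1, Q p x n = Q p y n := fun n hn =>
    prod_congr rfl fun r hr => by
      have := mem_range.1 hr
      simp only [hA r (by omega)]
  rw [closed hp m g hg, closed hp m g hg, hg x y h, hQ _ le_rfl,
    hg (succ x) (succ y) fun r hr => by simp only [succ, hA r hr.le, h r hr]]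
  congr 1
  refine sum_congr rfl fun s hs => ?_
  have := mem_range.1 hs
  rw [hQ (s + 1) (by omega), hQ (s + 2) (by omega),
    hg (trunc (s + 1) x) (trunc (s + 1) y) fun r hr => by
    simp only [trunc, h r hr]]

theorem result (d : ℕ → ℕ) [∀ r, NeZero (d r)] (hd : ∀ r, 2 ≤ d r) (p : ℕ → ℝ)
    (hp : ∀ r, 0 < p r ∧ p r ≤ 1) (l : ℂ)
    (hinj : ∀ g : (∀ r, Fin (d r)) → ℂ, Continuous g → (∀ x, op p g x - l * g x = 0) → g = 0)
    (h : (∀ r, Fin (d r)) → ℂ) (hh : Continuous h) (ε : ℝ) (hε : 0 < ε) :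
    ∃ g : (∀ r, Fin (d r)) → ℂ, Continuous g ∧ ∀ x, ‖op p g x - l * g x - h x‖ ≤ ε := by
  obtain ⟨m, hm⟩ : ∃ m, ∀ x y : ∀ r, Fin (d r), (∀ r < m, x r = y r) → ‖h x - h y‖ < ε := by
    by_contra hcon
    push Not at hcon
    have hc : ∀ m, IsClosed {q : (∀ r, Fin (d r)) × ∀ r, Fin (d r) |
        (∀ r < m, q.1 r = q.2 r) ∧ ε ≤ ‖h q.1 - h q.2‖} := by
      intro m
      have k : Continuous fun q : (∀ r, Fin (d r)) × ∀ r, Fin (d r) => ‖h q.1 - h q.2‖ := by
        fun_prop
      refine IsClosed.inter ?_ (isClosed_le continuous_const k)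
      change IsClosed {q : (∀ r, Fin (d r)) × ∀ r, Fin (d r) | ∀ r < m, q.1 r = q.2 r}
      simp only [Set.setOf_forall]
      exact isClosed_iInter fun r => isClosed_iInter fun _ => isClosed_eq (by fun_prop) (by fun_prop)
    obtain ⟨q, hq⟩ := IsCompact.nonempty_iInter_of_sequence_nonempty_isCompact_isClosed
      (fun m => {q : (∀ r, Fin (d r)) × ∀ r, Fin (d r) |
        (∀ r < m, q.1 r = q.2 r) ∧ ε ≤ ‖h q.1 - h q.2‖})
      (fun m q hq => ⟨fun r hr => hq.1 r (by omega), hq.2⟩)
      (fun m => by obtain ⟨x, y, h⟩ := hcon m; exact ⟨(x, y), h⟩) (hc 0).isCompact hc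
    rw [Set.mem_iInter] at hq
    have h1 : q.1 = q.2 := funext fun r => (hq (r + 1)).1 r (by omega)
    have h2 := (hq 0).2
    rw [h1, sub_self, norm_zero] at h2
    linarith
  have hdep : ∀ u : (∀ r : Fin m, Fin (d r)) → ℂ, ∀ x y : ∀ r, Fin (d r), (∀ r < m, x r = y r) →
      u (res m x) = u (res m y) := fun u x y h => by rw [res_eq h]
  have hcont : ∀ u : (∀ r : Fin m, Fin (d r)) → ℂ, Continuous fun x => u (res m x) := fun u =>
    (continuous_of_discreteTopology (f := u)).comp (by unfold res; fun_prop)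
  have hre : ∀ x : ∀ r, Fin (d r), ∀ r < m, ext m (res m x) r = x r := fun x r hr => by
    simp [ext, res, hr]
  let A : ((∀ r : Fin m, Fin (d r)) → ℂ) →ₗ[ℂ] ((∀ r : Fin m, Fin (d r)) → ℂ) :=
    { toFun := fun u a => op p (fun x => u (res m x)) (ext m a) - l * u (res m (ext m a))
      map_add' := fun u v => by
        funext a
        rw [closed hp m _ (hdep (u + v))]
        simp only [Pi.add_apply]
        rw [closed hp m _ (hdep u), closed hp m _ (hdep v)]
        simp only [Pi.add_apply, mul_add, sum_add_distrib]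
        ring
      map_smul' := fun c u => by
        funext a
        rw [closed hp m _ (hdep (c • u))]
        simp only [Pi.smul_apply]
        rw [closed hp m _ (hdep u)]
        simp only [Pi.smul_apply, smul_eq_mul, mul_sub, mul_add, mul_sum, RingHom.id_apply]
        simp only [mul_left_comm c] }
  have hA : ∀ u x, A u (res m x) = op p (fun x => u (res m x)) x - l * u (res m x) := by
    intro u x
    change op p (fun x => u (res m x)) (ext m (res m x)) - l * u (res m (ext m (res m x))) = _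
    rw [op_dep hp m _ (hdep u) _ _ (hre x), res_eq (hre x)]
  have hi : Function.Injective A := by
    rw [injective_iff_map_eq_zero]
    intro u hu
    have := hinj _ (hcont u) fun x => by rw [← hA, hu]; rfl
    funext a
    have h2 := congrFun this (ext m a)
    have h3 : res m (ext m a) = a := funext fun r => by simp [res, ext]
    simpa [h3] using h2
  obtain ⟨u, hu⟩ := LinearMap.injective_iff_surjective.1 hi fun a => h (ext m a)
  refine ⟨_, hcont u, fun x => ?_⟩
  rw [← hA, hu]
  exact (hm _ _ (hre x)).le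

end Pool.Agent.Results.MP_8907f9_an.NoResidual
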